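import Mathlib

/-!
# MP_3eb4be_co: the edge-connectivity forced by average edge-connectivity `l` is `⌊l/2⌋ + 1`
-/

namespace Pool.Agent.Results.MP_3eb4be_co.ForcedConnectivity

open SimpleGraph

/-- `G` has `k` pairwise edge-disjoint `v`-`w` paths. -/
def HasDisjointPaths {V : Type} (G : SimpleGraph V) (v w : V) (k : ℕ) : Prop :=
  ∃ p : Fin k → G.Path v w, ∀ i j, i ≠ j →
    List.Disjoint (p i : G.Walk v w).edges (p j : G.Walk v w).edges

/-- `λ(v,w)`: the maximum number of pairwise edge-disjoint `v`-`w` paths. -/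
noncomputable def lam {V : Type} (G : SimpleGraph V) (v w : V) : ℕ :=
  sSup {k | HasDisjointPaths G v w k}

/-- The average edge-connectivity: the average of `λ(v,w)` over ordered pairs of distinct
vertices (`λ` is symmetric, so this is the average over unordered pairs). -/
noncomputable def avg {V : Type} [Fintype V] [DecidableEq V] (G : SimpleGraph V) : ℚ :=
  (∑ v : V, ∑ w ∈ Finset.univ.erase v, (lam G v w : ℚ)) /
    ((Fintype.card V : ℚ) * ((Fintype.card V : ℚ) - 1))

/-- The subgraph `H` (with at least two vertices) is `t`-edge-connected: deleting fewer than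
`t` edges leaves it connected. -/
def EdgeConn {V : Type} {G : SimpleGraph V} (H : G.Subgraph) (t : ℕ) : Prop :=
  H.verts.Nontrivial ∧ ∀ T : Finset (Sym2 V), T.card < t → (H.deleteEdges (T : Set (Sym2 V))).Connected

/-- Every graph with average edge-connectivity at least `l` contains a `t`-edge-connected
subgraph. -/
def Forced (l t : ℕ) : Prop :=
  ∀ (V : Type) [Fintype V] [DecidableEq V] (G : SimpleGraph V), 2 ≤ Fintype.card V →
    (l : ℚ) ≤ avg G → ∃ H : G.Subgraph, EdgeConn H t

section basic

variable {V : Type} {G : SimpleGraph V}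

theorem HasDisjointPaths.le_degree [Fintype V] [DecidableEq V] [DecidableRel G.Adj] {v w : V}
    (hvw : v ≠ w) {k : ℕ} (h : HasDisjointPaths G v w k) : k ≤ G.degree v := by
  obtain ⟨p, hp⟩ := h
  have hnil : ∀ i, ¬ (p i : G.Walk v w).Nil := fun i => Walk.not_nil_of_ne hvw
  have hmem : ∀ i, s(v, (p i : G.Walk v w).snd) ∈ (p i : G.Walk v w).edges := by
    intro i
    rw [Walk.mk_start_snd_eq_head_edges (hnil i)]
    exact List.head_mem _
  have hinj : Function.Injective (fun i => (p i : G.Walk v w).snd) := by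
    intro i j hij
    by_contra hne
    have h1 := hmem i
    have h2 := hmem j
    simp only at hij
    rw [← hij] at h2
    exact hp i j hne h1 h2
  have : (Finset.univ.image (fun i => (p i : G.Walk v w).snd)) ⊆ G.neighborFinset v := by
    intro x hx
    simp only [Finset.mem_image, Finset.mem_univ, true_and] at hx
    obtain ⟨i, rfl⟩ := hx
    rw [mem_neighborFinset]
    exact Walk.adj_snd (hnil i)
  calc k = (Finset.univ.image (fun i => (p i : G.Walk v w).snd)).card := by
        rw [Finset.card_image_of_injective _ hinj, Finset.card_univ, Fintype.card_fin]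
    _ ≤ (G.neighborFinset v).card := Finset.card_le_card this
    _ = G.degree v := rfl

theorem hasDisjointPaths_zero (v w : V) : HasDisjointPaths G v w 0 :=
  ⟨fun i => i.elim0, fun i => i.elim0⟩

theorem lam_le_degree [Fintype V] [DecidableEq V] [DecidableRel G.Adj] {v w : V}
    (hvw : v ≠ w) : lam G v w ≤ G.degree v :=
  csSup_le ⟨0, hasDisjointPaths_zero v w⟩ (fun _ hk => HasDisjointPaths.le_degree hvw hk)

theorem le_lam [Fintype V] [DecidableEq V] [DecidableRel G.Adj] {v w : V}
    (hvw : v ≠ w) {k : ℕ} (h : HasDisjointPaths G v w k) : k ≤ lam G v w :=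
  le_csSup ⟨G.degree v, fun _ hk => HasDisjointPaths.le_degree hvw hk⟩ h

theorem HasDisjointPaths.symm {v w : V} {k : ℕ} (h : HasDisjointPaths G v w k) :
    HasDisjointPaths G w v k := by
  obtain ⟨p, hp⟩ := h
  refine ⟨fun i => (p i).reverse, fun i j hij => ?_⟩
  intro e he1 he2
  simp only [Path.reverse_coe, Walk.edges_reverse, List.mem_reverse] at he1 he2
  exact hp i j hij he1 he2

/-- `λ` is symmetric. -/
theorem lam_comm (v w : V) : lam G v w = lam G w v := by
  unfold lam
  congr 1
  ext k
  exact ⟨fun h => h.symm, fun h => h.symm⟩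

theorem EdgeConn.mono {H : G.Subgraph} {s t : ℕ} (hst : s ≤ t) (h : EdgeConn H t) :
    EdgeConn H s :=
  ⟨h.1, fun T hT => h.2 T (lt_of_lt_of_le hT hst)⟩

theorem Forced.mono {l s t : ℕ} (hst : s ≤ t) (h : Forced l t) : Forced l s := by
  intro V _ _ G hV hG
  obtain ⟨H, hH⟩ := h V G hV hG
  exact ⟨H, hH.mono hst⟩

end basic

section lower

variable {V : Type} [Fintype V] [DecidableEq V] {G : SimpleGraph V}

open Classical in
/-- The number of edges of `G` inside `S`. -/
noncomputable def eIn (G : SimpleGraph V) (S : Finset V) : ℕ :=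
  (G.edgeFinset.filter (fun e => ∀ x ∈ e, x ∈ S)).card

open Classical in
theorem mader (s : ℕ) (n : ℕ) : ∀ S : Finset V, S.card = n → S.Nonempty →
    s * (S.card - 1) < eIn G S → ∃ H : G.Subgraph, EdgeConn H (s + 1) := by
  induction n using Nat.strong_induction_on with
  | _ n ih =>
    intro S hn hS hE
    set H : G.Subgraph := (⊤ : G.Subgraph).induce (S : Set V) with hH
    have hverts : H.verts = (S : Set V) := rfl
    have hadj : ∀ a b, H.Adj a b ↔ a ∈ S ∧ b ∈ S ∧ G.Adj a b := by
      intro a b
      simp [hH, Subgraph.induce_adj]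
    by_cases hconn : EdgeConn H (s + 1)
    · exact ⟨H, hconn⟩
    · -- find the cut
      have hpos : 0 < eIn G S := lt_of_le_of_lt (Nat.zero_le _) hE
      have hnt : H.verts.Nontrivial := by
        obtain ⟨e, he⟩ := Finset.card_pos.mp hpos
        rw [Finset.mem_filter] at he
        induction e using Sym2.ind with
        | _ a b =>
          have hab : G.Adj a b := by simpa using he.1
          exact ⟨a, he.2 a (by simp), b, he.2 b (by simp), hab.ne⟩
      unfold EdgeConn at hconn
      push Not at hconn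
      obtain ⟨T, hT, hdis⟩ := hconn hnt
      rw [Subgraph.connected_iff_forall_exists_walk_subgraph] at hdis
      push Not at hdis
      set K := H.deleteEdges (T : Set (Sym2 V)) with hK
      have hKv : K.verts = (S : Set V) := rfl
      obtain ⟨u, v, hu, hv, huv⟩ := hdis (by rw [hKv]; exact hS)
      rw [hKv] at hu hv
      set S1 : Finset V := S.filter (fun z => ∃ p : G.Walk u z, p.toSubgraph ≤ K) with hS1
      have huS1 : u ∈ S1 := by
        rw [hS1, Finset.mem_filter]
        refine ⟨hu, Walk.nil, ?_⟩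
        rw [Walk.toSubgraph]
        simpa [hKv] using hu
      have hvS1 : v ∉ S1 := by
        rw [hS1, Finset.mem_filter]
        rintro ⟨_, p, hp⟩
        exact huv p hp
      set S2 : Finset V := S \ S1 with hS2
      have hS1S : S1 ⊆ S := Finset.filter_subset _ _
      have hvS2 : v ∈ S2 := Finset.mem_sdiff.mpr ⟨hv, hvS1⟩
      have hcard : S1.card + S2.card = S.card := by
        rw [hS2, Finset.card_sdiff_of_subset hS1S]
        have := Finset.card_le_card hS1S
        omega
      have h1 : 1 ≤ S1.card := Finset.card_pos.mpr ⟨u, huS1⟩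
      have h2 : 1 ≤ S2.card := Finset.card_pos.mpr ⟨v, hvS2⟩
      -- crossing edges are in T
      have hcross : ∀ a b, a ∈ S1 → b ∈ S → b ∉ S1 → G.Adj a b → s(a, b) ∈ T := by
        intro a b ha hb hb1 hab
        by_contra hnT
        apply hb1
        rw [hS1, Finset.mem_filter] at ha ⊢
        obtain ⟨haS, p, hp⟩ := ha
        have hKab : K.Adj a b := by
          rw [hK, Subgraph.deleteEdges_adj, hadj]
          exact ⟨⟨haS, hb, hab⟩, by simpa using hnT⟩
        refine ⟨hb, p.append hab.toWalk, ?_⟩
        rw [Walk.toSubgraph_append]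
        apply sup_le hp
        rw [Adj.toSubgraph_toWalk]
        exact subgraphOfAdj_le_of_adj K hKab
      have hsub : G.edgeFinset.filter (fun e => ∀ x ∈ e, x ∈ S) ⊆
          (G.edgeFinset.filter (fun e => ∀ x ∈ e, x ∈ S1) ∪
            G.edgeFinset.filter (fun e => ∀ x ∈ e, x ∈ S2)) ∪ T := by
        intro e he
        rw [Finset.mem_filter] at he
        induction e using Sym2.ind with
        | _ a b =>
          have hab : G.Adj a b := by simpa using he.1
          have ha : a ∈ S := he.2 a (by simp)
          have hb : b ∈ S := he.2 b (by simp)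
          by_cases ha1 : a ∈ S1
          · by_cases hb1 : b ∈ S1
            · apply Finset.mem_union_left
              apply Finset.mem_union_left
              rw [Finset.mem_filter]
              refine ⟨he.1, ?_⟩
              intro x hx
              rw [Sym2.mem_iff] at hx
              rcases hx with rfl | rfl <;> assumption
            · apply Finset.mem_union_right
              exact hcross a b ha1 hb hb1 hab
          · by_cases hb1 : b ∈ S1
            · apply Finset.mem_union_right
              have := hcross b a hb1 ha ha1 hab.symm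
              rwa [Sym2.eq_swap] at this
            · apply Finset.mem_union_left
              apply Finset.mem_union_right
              rw [Finset.mem_filter]
              refine ⟨he.1, ?_⟩
              intro x hx
              rw [Sym2.mem_iff] at hx
              rcases hx with rfl | rfl
              · exact Finset.mem_sdiff.mpr ⟨ha, ha1⟩
              · exact Finset.mem_sdiff.mpr ⟨hb, hb1⟩
      have hle : eIn G S ≤ eIn G S1 + eIn G S2 + T.card := by
        unfold eIn
        refine (Finset.card_le_card hsub).trans ((Finset.card_union_le _ _).trans ?_)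
        exact Nat.add_le_add_right (Finset.card_union_le _ _) _
      have hkey : s * (S.card - 1) = s * (S1.card - 1) + s * (S2.card - 1) + s := by
        have : S.card - 1 = (S1.card - 1) + (S2.card - 1) + 1 := by omega
        rw [this]
        ring
      by_cases hc : s * (S1.card - 1) < eIn G S1
      · exact ih S1.card (by omega) S1 rfl ⟨u, huS1⟩ hc
      · have hc2 : s * (S2.card - 1) < eIn G S2 := by omega
        exact ih S2.card (by omega) S2 rfl ⟨v, hvS2⟩ hc2

theorem forced_lower (l : ℕ) (hl : 1 ≤ l) : Forced l (l / 2 + 1) := by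
  classical
  intro V _ _ G hV hG
  have hn : (2 : ℚ) ≤ Fintype.card V := by exact_mod_cast hV
  have hsum : (∑ v : V, ∑ w ∈ Finset.univ.erase v, (lam G v w : ℚ)) ≤
      ((Fintype.card V : ℚ) - 1) * (2 * G.edgeFinset.card) := by
    have h1 : ∀ v : V, ∑ w ∈ Finset.univ.erase v, (lam G v w : ℚ) ≤
        ((Fintype.card V : ℚ) - 1) * (G.degree v : ℚ) := by
      intro v
      have : ∀ w ∈ Finset.univ.erase v, (lam G v w : ℚ) ≤ (G.degree v : ℚ) := by
        intro w hw
        have := lam_le_degree (G := G) (Finset.ne_of_mem_erase hw).symm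
        exact_mod_cast this
      refine (Finset.sum_le_card_nsmul _ _ _ this).trans (le_of_eq ?_)
      rw [Finset.card_erase_of_mem (Finset.mem_univ v), Finset.card_univ, nsmul_eq_mul]
      rw [Nat.cast_sub (by omega)]
      simp
    refine (Finset.sum_le_sum fun v _ => h1 v).trans (le_of_eq ?_)
    rw [← Finset.mul_sum]
    congr 1
    have := G.sum_degrees_eq_twice_card_edges
    exact_mod_cast this
  have hdiv : (l : ℚ) * (Fintype.card V) ≤ 2 * G.edgeFinset.card := by
    unfold avg at hG
    have hpos : (0 : ℚ) < (Fintype.card V : ℚ) * ((Fintype.card V : ℚ) - 1) := by nlinarith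
    rw [le_div_iff₀ hpos] at hG
    have h2 := hG.trans hsum
    have h3 : (0 : ℚ) < (Fintype.card V : ℚ) - 1 := by linarith
    by_contra hcon
    push Not at hcon
    nlinarith
  have hdiv' : l * Fintype.card V ≤ 2 * G.edgeFinset.card := by exact_mod_cast hdiv
  apply mader (G := G) (l / 2) (Finset.univ : Finset V).card Finset.univ rfl
  · rw [Finset.univ_nonempty_iff]
    exact Fintype.card_pos_iff.mp (by omega)
  · have he : eIn G Finset.univ = G.edgeFinset.card := by
      unfold eIn
      congr 1
      apply Finset.filter_true_of_mem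
      intro e _ x _
      exact Finset.mem_univ x
    rw [he, Finset.card_univ]
    set n := Fintype.card V
    set m := G.edgeFinset.card
    have h4 : 2 * (l / 2) ≤ l := Nat.mul_div_le l 2
    rcases Nat.eq_zero_or_pos (l / 2) with h0 | h0
    · rw [h0]
      nlinarith
    · have h5 : 2 * ((l / 2) * n) ≤ 2 * m := by
        calc 2 * ((l / 2) * n) = (2 * (l / 2)) * n := by ring
          _ ≤ l * n := Nat.mul_le_mul_right _ h4
          _ ≤ 2 * m := hdiv'
      have h6 : (l / 2) * (n - 1) < (l / 2) * n := Nat.mul_lt_mul_of_pos_left (by omega) h0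
      omega

end lower

section upper

/-- A family of walks through pairwise disjoint sets gives edge-disjoint paths. -/
theorem disjoint_family {V : Type} {G : SimpleGraph V} {ι : Type} {k : ℕ} (eq : Fin k ≃ ι)
    (P : ι → Set V) (u v : V) (huP : ∀ i, u ∉ P i) (hvP : ∀ i, v ∉ P i)
    (hdisj : ∀ i j, i ≠ j → ∀ z, z ∈ P i → z ∉ P j)
    (hw : ∀ i, ∃ x y, G.Adj u x ∧ G.Adj y v ∧ ∃ p : G.Walk x y, ∀ z ∈ p.support, z ∈ P i) :
    HasDisjointPaths G u v k := by
  classical
  choose x y hux hyv p hp using hw
  set w : ι → G.Walk u v := fun i =>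
    Walk.cons (hux i) ((p i).append (Walk.cons (hyv i) Walk.nil)) with hwdef
  have hedge : ∀ i, ∀ e ∈ (w i).edges, ∃ z ∈ e, z ∈ P i := by
    intro i e he
    simp only [hwdef, Walk.edges_cons, Walk.edges_append, Walk.edges_nil, List.mem_cons,
      List.mem_append, List.not_mem_nil, or_false] at he
    rcases he with rfl | he | rfl
    · exact ⟨x i, by simp, hp i _ (Walk.start_mem_support _)⟩
    · induction e using Sym2.ind with
      | _ a b => exact ⟨a, by simp, hp i _ (Walk.fst_mem_support_of_mem_edges _ he)⟩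
    · exact ⟨y i, by simp, hp i _ (Walk.end_mem_support _)⟩
  have hsupp : ∀ i, ∀ z ∈ (w i).support, z = u ∨ z = v ∨ z ∈ P i := by
    intro i z hz
    simp only [hwdef, Walk.support_cons, Walk.support_append, Walk.support_nil,
      List.mem_cons, List.mem_append, List.tail_cons, List.not_mem_nil, or_false] at hz
    rcases hz with rfl | hz | rfl
    · exact Or.inl rfl
    · exact Or.inr (Or.inr (hp i z hz))
    · exact Or.inr (Or.inl rfl)
  refine ⟨fun i => (w (eq i)).toPath, ?_⟩
  intro i j hij e he1 he2
  have h1 := Walk.edges_toPath_subset_edges (w (eq i)) he1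
  have h2 := Walk.edges_toPath_subset_edges (w (eq j)) he2
  obtain ⟨z, hze, hzP⟩ := hedge _ e h1
  have hz2 : z ∈ (w (eq j)).support := by
    induction e using Sym2.ind with
    | _ a b =>
      rw [Sym2.mem_iff] at hze
      rcases hze with rfl | rfl
      · exact Walk.fst_mem_support_of_mem_edges _ h2
      · exact Walk.snd_mem_support_of_mem_edges _ h2
  rcases hsupp _ z hz2 with rfl | rfl | hz3
  · exact huP _ hzP
  · exact hvP _ hzP
  · exact hdisj _ _ (fun h => hij (eq.injective h)) z hzP hz3

/-- Vertices have at least `k + 1` neighbours in a `(k+1)`-edge-connected subgraph. -/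
theorem min_degree {V : Type} [Fintype V] [DecidableEq V] {G : SimpleGraph V} {H : G.Subgraph}
    {k : ℕ} (hH : EdgeConn H (k + 1)) {v : V} (hv : v ∈ H.verts) (S : Finset V)
    (hS : ∀ w, H.Adj v w → w ∈ S) : k + 1 ≤ S.card := by
  by_contra hcon
  have hcard : (S.image (fun w => s(v, w))).card < k + 1 :=
    lt_of_le_of_lt Finset.card_image_le (by omega)
  have hc := hH.2 _ hcard
  rw [Subgraph.connected_iff_forall_exists_walk_subgraph] at hc
  obtain ⟨w, hw, hwv⟩ := hH.1.exists_ne v
  obtain ⟨p, hp⟩ := hc.2 (u := v) (v := w) hv hw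
  have hnil : ¬ p.Nil := Walk.not_nil_of_ne hwv.symm
  have h1 := p.toSubgraph_adj_snd hnil
  have h2 := hp.2 h1
  rw [Subgraph.deleteEdges_adj] at h2
  apply h2.2
  rw [Finset.mem_coe, Finset.mem_image]
  exact ⟨p.snd, hS _ h2.1, rfl⟩

/-- The graph: the blow-up of a path with `N` columns of size `m`, closed up by `m` paths of
length two through the vertices of the extra column `N`. -/
def Gr (N m : ℕ) : SimpleGraph (Fin (N + 1) × Fin m) where
  Adj x y := x ≠ y ∧
    ((x.1.val < N ∧ y.1.val < N ∧ (x.1.val + 1 = y.1.val ∨ y.1.val + 1 = x.1.val)) ∨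
    (x.2 = y.2 ∧ ((x.1.val = N ∧ (y.1.val = 0 ∨ y.1.val + 1 = N)) ∨
      (y.1.val = N ∧ (x.1.val = 0 ∨ x.1.val + 1 = N)))))
  symm := ⟨by
    rintro x y ⟨h0, h⟩
    refine ⟨h0.symm, ?_⟩
    rcases h with ⟨h1, h2, h3⟩ | ⟨h1, h2⟩
    · exact Or.inl ⟨h2, h1, h3.symm⟩
    · exact Or.inr ⟨h1.symm, h2.symm⟩⟩
  loopless := ⟨fun x h => h.1 rfl⟩

theorem no_edgeConn (N m : ℕ) (hm : 2 ≤ m) (H : (Gr N m).Subgraph) :
    ¬ EdgeConn H (m + 1) := by
  classical
  intro hH
  have hlt : ∀ x ∈ H.verts, x.1.val < N := by
    intro x hx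
    by_contra hxN
    have hxN' : x.1.val = N := by
      have := x.1.isLt
      omega
    have := min_degree hH hx
      ((Finset.univ.filter (fun c : Fin (N + 1) × Fin m => c.2 = x.2 ∧
        (c.1.val = 0 ∨ c.1.val + 1 = N)))) (by
        intro w hw
        have hG := H.adj_sub hw
        obtain ⟨_, h⟩ := hG
        rw [Finset.mem_filter]
        refine ⟨Finset.mem_univ _, ?_⟩
        rcases h with ⟨h1, _⟩ | ⟨h1, h2 | h2⟩
        · omega
        · exact ⟨h1.symm, h2.2⟩
        · exact ⟨h1.symm, by
            rcases h2 with ⟨h3, h4⟩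
            omega⟩)
    have hle : (Finset.univ.filter (fun c : Fin (N + 1) × Fin m => c.2 = x.2 ∧
        (c.1.val = 0 ∨ c.1.val + 1 = N))).card ≤ ({0, N - 1} : Finset ℕ).card := by
      apply Finset.card_le_card_of_injOn (fun c => c.1.val)
      · intro c hc
        simp only [Finset.coe_filter, Finset.mem_univ, true_and, Set.mem_ofPred_eq] at hc
        simp only [Finset.coe_insert, Finset.coe_singleton, Set.mem_insert_iff,
          Set.mem_singleton_iff]
        omega
      · intro c hc c' hc' h
        simp only [Finset.coe_filter, Finset.mem_univ, true_and, Set.mem_ofPred_eq] at hc hc'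
        exact Prod.ext (Fin.ext h) (hc.1.trans hc'.1.symm)
    have h2 : ({0, N - 1} : Finset ℕ).card ≤ 2 := Finset.card_le_two
    omega
  obtain ⟨x, hx, hmin⟩ := Set.exists_min_image H.verts (fun x => x.1.val)
    (Set.toFinite _) hH.1.nonempty
  have := min_degree hH hx
    ((Finset.univ.filter (fun c : Fin (N + 1) × Fin m => c.1.val = x.1.val + 1))) (by
      intro w hw
      have hG := H.adj_sub hw
      have hwv : w ∈ H.verts := H.edge_vert hw.symm
      have h1 := hlt x hx
      have h2 := hlt w hwv
      have h3 := hmin w hwv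
      obtain ⟨_, h⟩ := hG
      rw [Finset.mem_filter]
      refine ⟨Finset.mem_univ _, ?_⟩
      rcases h with ⟨_, _, h4⟩ | ⟨_, h4⟩
      · omega
      · omega)
  have hle : (Finset.univ.filter (fun c : Fin (N + 1) × Fin m => c.1.val = x.1.val + 1)).card ≤
      (Finset.univ : Finset (Fin m)).card := by
    apply Finset.card_le_card_of_injOn (fun c => c.2)
    · intro c _
      simp
    · intro c hc c' hc' h
      simp only [Finset.coe_filter, Finset.mem_univ, true_and, Set.mem_ofPred_eq] at hc hc'
      exact Prod.ext (Fin.ext (hc.trans hc'.symm)) h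
  rw [Finset.card_univ, Fintype.card_fin] at hle
  omega

theorem seg (N m : ℕ) (c : Fin m) (s d : ℕ) (h : s + d < N) :
    ∃ p : (Gr N m).Walk (⟨s, by omega⟩, c) (⟨s + d, by omega⟩, c),
      ∀ z ∈ p.support, z.2 = c ∧ s ≤ z.1.val ∧ z.1.val ≤ s + d := by
  induction d with
  | zero =>
    refine ⟨Walk.nil, ?_⟩
    intro z hz
    simp only [Walk.support_nil, List.mem_singleton] at hz
    subst hz
    simp
  | succ d ih =>
    obtain ⟨p, hp⟩ := ih (by omega)
    have hadj : (Gr N m).Adj (⟨s + d, by omega⟩, c) (⟨s + (d + 1), by omega⟩, c) := by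
      refine ⟨?_, Or.inl ⟨?_, ?_, Or.inl ?_⟩⟩
      · intro h
        have := congrArg (fun z : Fin (N + 1) × Fin m => z.1.val) h
        simp at this
      · simp only; omega
      · simp only; omega
      · simp only; omega
    refine ⟨p.append (Walk.cons hadj Walk.nil), ?_⟩
    intro z hz
    simp only [Walk.support_append, Walk.support_cons, Walk.support_nil, List.tail_cons,
      List.mem_append, List.mem_singleton] at hz
    rcases hz with hz | rfl
    · have := hp z hz
      exact ⟨this.1, this.2.1, by omega⟩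
    · exact ⟨rfl, by simp, by simp⟩

theorem paths_of_lt (N m : ℕ) (u v : Fin (N + 1) × Fin m) (h1 : 1 ≤ u.1.val)
    (h2 : u.1.val + 2 ≤ v.1.val) (h3 : v.1.val + 2 ≤ N) :
    HasDisjointPaths (Gr N m) u v (m + m) := by
  refine disjoint_family (finSumFinEquiv.symm) (fun i => match i with
    | Sum.inl c => {z | z.2 = c ∧ u.1.val < z.1.val ∧ z.1.val < v.1.val}
    | Sum.inr c => {z | z.2 = c ∧ (z.1.val < u.1.val ∨ v.1.val < z.1.val)}) u v ?_ ?_ ?_ ?_
  · rintro (c | c) hu
    · exact absurd hu.2.1 (lt_irrefl _)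
    · rcases hu.2 with h | h <;> omega
  · rintro (c | c) hv
    · exact absurd hv.2.2 (lt_irrefl _)
    · rcases hv.2 with h | h <;> omega
  · rintro (c | c) (c' | c') hne z hz hz'
    · exact hne (by rw [← hz.1, ← hz'.1])
    · rcases hz'.2 with h | h
      · have := hz.2.1; omega
      · have := hz.2.2; omega
    · rcases hz.2 with h | h
      · have := hz'.2.1; omega
      · have := hz'.2.2; omega
    · exact hne (by rw [← hz.1, ← hz'.1])
  · rintro (c | c)
    · obtain ⟨p, hp⟩ := seg N m c (u.1.val + 1) (v.1.val - 1 - (u.1.val + 1)) (by omega)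
      refine ⟨_, _, ?_, ?_, p, ?_⟩
      · refine ⟨?_, Or.inl ⟨by omega, by simp only; omega, Or.inl rfl⟩⟩
        intro h
        have := congrArg (fun z : Fin (N + 1) × Fin m => z.1.val) h
        simp at this
      · refine ⟨?_, Or.inl ⟨by simp only; omega, by omega, Or.inl (by simp only; omega)⟩⟩
        intro h
        have := congrArg (fun z : Fin (N + 1) × Fin m => z.1.val) h
        simp only at this
        omega
      · intro z hz
        have := hp z hz
        exact ⟨this.1, by omega, by omega⟩
    · obtain ⟨p, hp⟩ := seg N m c 0 (u.1.val - 1) (by omega)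
      obtain ⟨q, hq⟩ := seg N m c (v.1.val + 1) (N - 1 - (v.1.val + 1)) (by omega)
      have hadj1 : (Gr N m).Adj (⟨0, by omega⟩, c) (⟨N, by omega⟩, c) := by
        refine ⟨?_, Or.inr ⟨rfl, Or.inr ⟨rfl, Or.inl rfl⟩⟩⟩
        intro h
        have := congrArg (fun z : Fin (N + 1) × Fin m => z.1.val) h
        simp only at this
        omega
      have hadj2 : (Gr N m).Adj (⟨N, by omega⟩, c)
          (⟨v.1.val + 1 + (N - 1 - (v.1.val + 1)), by omega⟩, c) := by
        refine ⟨?_, Or.inr ⟨rfl, Or.inl ⟨rfl, Or.inr (by simp only; omega)⟩⟩⟩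
        intro h
        have := congrArg (fun z : Fin (N + 1) × Fin m => z.1.val) h
        simp only at this
        omega
      refine ⟨_, _, ?_, ?_, p.reverse.append (Walk.cons hadj1 (Walk.cons hadj2 q.reverse)), ?_⟩
      · refine ⟨?_, Or.inl ⟨by omega, by simp only; omega, Or.inr (by simp only; omega)⟩⟩
        intro h
        have := congrArg (fun z : Fin (N + 1) × Fin m => z.1.val) h
        simp only at this
        omega
      · refine ⟨?_, Or.inl ⟨by simp only; omega, by omega, Or.inr (by simp only)⟩⟩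
        intro h
        have := congrArg (fun z : Fin (N + 1) × Fin m => z.1.val) h
        simp only at this
        omega
      · intro z hz
        simp only [Walk.support_append, Walk.support_cons, Walk.support_reverse, List.tail_cons,
          List.mem_append, List.mem_cons, List.mem_reverse] at hz
        rcases hz with hz | rfl | hz
        · have := hp z hz
          exact ⟨this.1, Or.inl (by omega)⟩
        · exact ⟨rfl, Or.inr (by simp only; omega)⟩
        · have := hq z hz
          exact ⟨this.1, Or.inr (by omega)⟩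

theorem lam_ge (N m : ℕ) (u v : Fin (N + 1) × Fin m) (hu : 1 ≤ u.1.val)
    (hu' : u.1.val + 2 ≤ N) (hv : 1 ≤ v.1.val) (hv' : v.1.val + 2 ≤ N)
    (h : u.1.val + 2 ≤ v.1.val ∨ v.1.val + 2 ≤ u.1.val) : 2 * m ≤ lam (Gr N m) u v := by
  classical
  rw [two_mul]
  rcases h with h | h
  · apply le_lam
    · rintro rfl
      omega
    · exact paths_of_lt N m u v hu h hv'
  · rw [lam_comm]
    apply le_lam
    · rintro rfl
      omega
    · exact paths_of_lt N m v u hv h hu'

theorem card_good (N : ℕ) (hN : 5 ≤ N) (i : Fin (N + 1)) :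
    N - 5 ≤ (((Finset.Icc (⟨1, by omega⟩ : Fin (N + 1)) ⟨N - 2, by omega⟩)).filter
      (fun j => i.val + 2 ≤ j.val ∨ j.val + 2 ≤ i.val)).card := by
  have h1 := Finset.card_filter_add_card_filter_not
    (s := Finset.Icc (⟨1, by omega⟩ : Fin (N + 1)) ⟨N - 2, by omega⟩)
    (fun j => i.val + 2 ≤ j.val ∨ j.val + 2 ≤ i.val)
  rw [Fin.card_Icc] at h1
  have h2 : ((Finset.Icc (⟨1, by omega⟩ : Fin (N + 1)) ⟨N - 2, by omega⟩).filter
      (fun j => ¬ (i.val + 2 ≤ j.val ∨ j.val + 2 ≤ i.val))).card ≤
      ({i.val - 1, i.val, i.val + 1} : Finset ℕ).card := by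
    apply Finset.card_le_card_of_injOn (fun j => j.val)
    · intro j hj
      simp only [Finset.coe_filter, Set.mem_ofPred_eq] at hj
      simp only [Finset.coe_insert, Finset.coe_singleton, Set.mem_insert_iff,
        Set.mem_singleton_iff]
      have := hj.2
      omega
    · intro j _ j' _ h
      exact Fin.ext h
  have h3 : ({i.val - 1, i.val, i.val + 1} : Finset ℕ).card ≤ 3 := Finset.card_le_three
  simp only at h1
  omega

theorem avg_ge (m l : ℕ) (hm : 1 ≤ m) (hl : l + 1 ≤ 2 * m) :
    (l : ℚ) ≤ avg (Gr (18 * m) m) := by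
  classical
  set N := 18 * m with hN
  have hN5 : 5 ≤ N := by omega
  set C : Finset (Fin (N + 1)) := Finset.Icc (⟨1, by omega⟩ : Fin (N + 1)) ⟨N - 2, by omega⟩
    with hC
  have hCcard : C.card = N - 2 := by
    rw [hC, Fin.card_Icc]
    simp only
    omega
  have hCmem : ∀ i, i ∈ C → 1 ≤ i.val ∧ i.val + 2 ≤ N := by
    intro i hi
    rw [hC, Finset.mem_Icc] at hi
    have h1 := hi.1
    have h2 := hi.2
    rw [Fin.le_def] at h1 h2
    simp only at h1 h2
    exact ⟨h1, by omega⟩
  have hsum : ((N : ℚ) - 2) * m * (((N : ℚ) - 5) * m * (2 * m)) ≤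
      ∑ v : Fin (N + 1) × Fin m, ∑ w ∈ Finset.univ.erase v, (lam (Gr N m) v w : ℚ) := by
    have h1 : ∀ v ∈ C ×ˢ (Finset.univ : Finset (Fin m)), ((N : ℚ) - 5) * m * (2 * m) ≤
        ∑ w ∈ Finset.univ.erase v, (lam (Gr N m) v w : ℚ) := by
      intro v hv
      rw [Finset.mem_product] at hv
      have hv1 := hCmem _ hv.1
      set D : Finset (Fin (N + 1)) := C.filter
        (fun j => v.1.val + 2 ≤ j.val ∨ j.val + 2 ≤ v.1.val) with hD
      have hDcard : N - 5 ≤ D.card := card_good N hN5 v.1
      have hsub : D ×ˢ (Finset.univ : Finset (Fin m)) ⊆ Finset.univ.erase v := by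
        intro w hw
        rw [Finset.mem_product, hD, Finset.mem_filter] at hw
        rw [Finset.mem_erase]
        refine ⟨?_, Finset.mem_univ _⟩
        rintro rfl
        have := hw.1.2
        omega
      have h2 : ∑ w ∈ D ×ˢ (Finset.univ : Finset (Fin m)), (lam (Gr N m) v w : ℚ) ≤
          ∑ w ∈ Finset.univ.erase v, (lam (Gr N m) v w : ℚ) :=
        Finset.sum_le_sum_of_subset_of_nonneg hsub (fun _ _ _ => Nat.cast_nonneg _)
      refine le_trans ?_ h2
      have h3 : ∀ w ∈ D ×ˢ (Finset.univ : Finset (Fin m)), (2 * m : ℚ) ≤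
          (lam (Gr N m) v w : ℚ) := by
        intro w hw
        rw [Finset.mem_product, hD, Finset.mem_filter] at hw
        have hw1 := hCmem _ hw.1.1
        have := lam_ge N m v w hv1.1 hv1.2 hw1.1 hw1.2 hw.1.2
        exact_mod_cast this
      refine le_trans ?_ (Finset.card_nsmul_le_sum _ _ _ h3)
      rw [Finset.card_product, Finset.card_univ, Fintype.card_fin, nsmul_eq_mul]
      have h4 : ((N : ℚ) - 5) ≤ D.card := by
        have : ((N - 5 : ℕ) : ℚ) ≤ D.card := by exact_mod_cast hDcard
        rw [Nat.cast_sub hN5] at this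
        exact_mod_cast this
      push_cast
      have h5 : (0 : ℚ) ≤ m := Nat.cast_nonneg _
      have h6 : (0 : ℚ) ≤ m * (2 * m) := by positivity
      nlinarith [mul_le_mul_of_nonneg_right h4 h6]
    have h7 : ∑ v ∈ C ×ˢ (Finset.univ : Finset (Fin m)),
        ∑ w ∈ Finset.univ.erase v, (lam (Gr N m) v w : ℚ) ≤
        ∑ v : Fin (N + 1) × Fin m, ∑ w ∈ Finset.univ.erase v, (lam (Gr N m) v w : ℚ) :=
      Finset.sum_le_sum_of_subset_of_nonneg (Finset.subset_univ _)
        (fun _ _ _ => Finset.sum_nonneg (fun _ _ => Nat.cast_nonneg _))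
    refine le_trans ?_ h7
    refine le_trans ?_ (Finset.card_nsmul_le_sum _ _ _ h1)
    rw [Finset.card_product, Finset.card_univ, Fintype.card_fin, nsmul_eq_mul, hCcard]
    push_cast
    rw [Nat.cast_sub (by omega)]
    push_cast
    exact le_rfl
  unfold avg
  have hcard : (Fintype.card (Fin (N + 1) × Fin m) : ℚ) = ((N : ℚ) + 1) * m := by
    rw [Fintype.card_prod, Fintype.card_fin, Fintype.card_fin]
    push_cast
    ring
  rw [hcard]
  have hm' : (1 : ℚ) ≤ m := by exact_mod_cast hm
  have hNq : (N : ℚ) = 18 * m := by rw [hN]; push_cast; ring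
  have hn : (1 : ℚ) < ((N : ℚ) + 1) * m := by rw [hNq]; nlinarith
  have hpos : (0 : ℚ) < ((N : ℚ) + 1) * m * (((N : ℚ) + 1) * m - 1) := by
    apply mul_pos <;> linarith
  rw [le_div_iff₀ hpos]
  refine le_trans ?_ hsum
  have hl' : (l : ℚ) ≤ 2 * m - 1 := by
    have : ((l + 1 : ℕ) : ℚ) ≤ ((2 * m : ℕ) : ℚ) := by exact_mod_cast hl
    push_cast at this
    linarith
  have h8 : (l : ℚ) * (((N : ℚ) + 1) * m * (((N : ℚ) + 1) * m - 1)) ≤
      (2 * m - 1) * (((N : ℚ) + 1) * m * (((N : ℚ) + 1) * m)) := by
    apply mul_le_mul hl' _ hpos.le (by linarith)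
    apply mul_le_mul_of_nonneg_left _ (by linarith)
    linarith
  refine h8.trans ?_
  rw [hNq]
  have h9 : (0 : ℚ) ≤ (m : ℚ) ^ 2 := by positivity
  have h10 : (18 * (m : ℚ) - 2) * (18 * m - 5) * (2 * m) - (2 * m - 1) * (18 * m + 1) ^ 2
      = 54 * m + 1 := by ring
  nlinarith [mul_nonneg h9 (show (0 : ℚ) ≤ 54 * (m : ℚ) + 1 by positivity)]

theorem not_forced_one : ¬ Forced 1 2 := by
  classical
  intro h
  obtain ⟨H, hH⟩ := h (Fin 2) (⊤ : SimpleGraph (Fin 2)) (by simp) (by
    unfold avg
    have hlam : ∀ v w : Fin 2, v ≠ w → 1 ≤ lam (⊤ : SimpleGraph (Fin 2)) v w := by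
      intro v w hvw
      apply le_lam hvw
      refine ⟨fun _ => Path.singleton (by simpa using hvw), ?_⟩
      intro i j hij
      exact absurd (Subsingleton.elim i j) hij
    have h1 : (1 : ℚ) ≤ (lam (⊤ : SimpleGraph (Fin 2)) 0 1 : ℚ) := by
      exact_mod_cast hlam 0 1 (by decide)
    have h2 : (1 : ℚ) ≤ (lam (⊤ : SimpleGraph (Fin 2)) 1 0 : ℚ) := by
      exact_mod_cast hlam 1 0 (by decide)
    have e0 : (Finset.univ : Finset (Fin 2)).erase 0 = {1} := by decide
    have e1 : (Finset.univ : Finset (Fin 2)).erase 1 = {0} := by decide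
    rw [Fin.sum_univ_two, e0, e1, Finset.sum_singleton, Finset.sum_singleton, Fintype.card_fin]
    rw [le_div_iff₀ (by norm_num)]
    push_cast
    linarith)
  obtain ⟨v, hv⟩ := hH.1.nonempty
  have := min_degree (k := 1) hH hv (Finset.univ.erase v) (by
    intro w hw
    rw [Finset.mem_erase]
    exact ⟨(H.adj_sub hw).ne.symm, Finset.mem_univ _⟩)
  rw [Finset.card_erase_of_mem (Finset.mem_univ v), Finset.card_univ, Fintype.card_fin] at this
  omega

theorem not_forced (l : ℕ) (hl : 1 ≤ l) : ¬ Forced l (l / 2 + 2) := by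
  rcases Nat.lt_or_ge l 2 with h | h
  · have : l = 1 := by omega
    subst this
    exact not_forced_one
  · intro hF
    obtain ⟨H, hH⟩ := hF (Fin (18 * (l / 2 + 1) + 1) × Fin (l / 2 + 1))
      (Gr (18 * (l / 2 + 1)) (l / 2 + 1)) (by
        rw [Fintype.card_prod, Fintype.card_fin, Fintype.card_fin]
        have : 1 ≤ l / 2 := by omega
        nlinarith) (avg_ge (l / 2 + 1) l (by omega) (by omega))
    exact no_edgeConn _ _ (by omega) H hH

end upper

/-- **MP_3eb4be_co, Q1, full answer.** For every positive integer `l`, the largest `t` such that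
every finite simple graph with average edge-connectivity at least `l` contains a
`t`-edge-connected subgraph is `⌊l/2⌋ + 1`. -/
theorem result (l : ℕ) (hl : 1 ≤ l) : IsGreatest {t | Forced l t} (l / 2 + 1) := by
  refine ⟨forced_lower l hl, ?_⟩
  intro t ht
  by_contra hcon
  push Not at hcon
  exact not_forced l hl (Forced.mono (by omega) ht)

end Pool.Agent.Results.MP_3eb4be_co.ForcedConnectivity
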